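import Pool.Agent.helper77.BND.SpecB

/-!
# Row bnd:BCL: the sets `S m` are closed
-/

set_option autoImplicit false

open scoped Topology Matrix
open Filter Finset

namespace Pool.Agent.BND

open Pool.Agent.CZ Pool.Agent.PV

theorem BCL : BCL_stmt := by
  intro B M _ α A _ ι u c hC m
  have hcn : ∀ n : ℤ, Continuous fun a : A => c n a := fun n =>
    AddMonoidHomClass.continuous_of_bound (c n) 1 (fun a => by
      rw [one_mul]; exact hC.cov.cnorm n a)
  have hcx : ∀ (n : ℤ) (x : ↥(XS B)), Continuous fun a : A => c n a x := fun n x =>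
    (continuous_eval_const x).comp (hcn n)
  have hι : Continuous fun f : C(↥(XS B), ℂ) => ι f :=
    AddMonoidHomClass.continuous_of_bound ι 1 (fun f => by
      rw [one_mul]; exact NonUnitalStarAlgHom.norm_apply_le ι f)
  have h1 : IsClosed {a : A | ∀ (n : ℤ) (x y : ↥(XS B)), x.1 m = y.1 m → c n a x = c n a y} := by
    simp only [Set.ofPred_forall]
    exact isClosed_iInter fun n => isClosed_iInter fun x => isClosed_iInter fun y =>
      isClosed_iInter fun _ => isClosed_eq (hcx n x) (hcx n y)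
  have h2 : IsClosed {a : A | ∀ (n : ℤ) (x : ↥(XS B)) (e : ℕ) (s : ℝ) (i : ℕ), e < (B.L m).N → s ∈ U →
      i < (B.L m).h e → x.1 m = emb (B.L m) e s i →
      ¬ (0 ≤ (i : ℤ) - n ∧ (i : ℤ) - n < (B.L m).h e) → c n a x = 0} := by
    simp only [Set.ofPred_forall]
    exact isClosed_iInter fun n => isClosed_iInter fun x => isClosed_iInter fun e =>
      isClosed_iInter fun s => isClosed_iInter fun i => isClosed_iInter fun _ =>
      isClosed_iInter fun _ => isClosed_iInter fun _ => isClosed_iInter fun _ =>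
      isClosed_iInter fun _ => isClosed_eq (hcx n x) continuous_const
  have h3 : IsClosed {a : A | ∀ H : ℕ, (∀ e, e < (B.L m).N → (B.L m).h e ≤ H) →
      a = ∑ n ∈ Icc (-(H : ℤ)) H, ι (c n a) * up u n} := by
    simp only [Set.ofPred_forall]
    exact isClosed_iInter fun H => isClosed_iInter fun _ => isClosed_eq continuous_id
      (continuous_finsetSum _ fun n _ => (hι.comp (hcn n)).mul continuous_const)
  have hS : {a : A | InS B ι u c m a} =
      {a : A | ∀ (n : ℤ) (x y : ↥(XS B)), x.1 m = y.1 m → c n a x = c n a y} ∩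
      ({a : A | ∀ (n : ℤ) (x : ↥(XS B)) (e : ℕ) (s : ℝ) (i : ℕ), e < (B.L m).N → s ∈ U →
        i < (B.L m).h e → x.1 m = emb (B.L m) e s i →
        ¬ (0 ≤ (i : ℤ) - n ∧ (i : ℤ) - n < (B.L m).h e) → c n a x = 0} ∩
      {a : A | ∀ H : ℕ, (∀ e, e < (B.L m).N → (B.L m).h e ≤ H) →
        a = ∑ n ∈ Icc (-(H : ℤ)) H, ι (c n a) * up u n}) := by
    ext a
    exact ⟨fun h => ⟨h.lev, h.van, h.sum⟩, fun h => ⟨h.1, h.2.1, h.2.2⟩⟩
  rw [hS]
  exact h1.inter (h2.inter h3)

end Pool.Agent.BND
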