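import Pool.Agent.helper77.BND.SpecB

/-!
# Row bnd:BRI: the rank homomorphism `R` is injective on `K₀(S m)`
-/

set_option autoImplicit false

open scoped Topology Matrix
open Filter Finset

namespace Pool.Agent.BND

open Pool.Agent.CZ Pool.Agent.PV

theorem BRI (hBEQ : BEQ_stmt) (hBFG : BFG_stmt) (hK0G : K0G_stmt) (hK0E : K0E_stmt) (hK0B : K0B_stmt) : BRI_stmt := by
  intro B M _ α A _ ι u c hC S hS m R hR w hw
  obtain ⟨n, r, E, hE, hwE⟩ := hK0G (S m) w
  have h1 : (1 : Matrix (Fin r) (Fin r) (S m)) * 1 = 1 := mul_one 1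
  have hB := hK0B.2.2 (S m) (Fin r) h1
  rw [Fintype.card_fin] at hB
  rw [← hB] at hwE
  have hfam : ∀ x : S m, ∃ G, IsFm (B.L m) G ∧ Fam B c m (x : A) G :=
    fun x => hBFG B M α A ι u c hC m x ((hS.mem m x).1 x.2)
  choose GG hGG using hfam
  have hlv := hC.bs.lv m
  have hU : (0 : ℝ) ∈ U := by simp
  have key : ∀ v, v < (B.L m).n →
      ∑ a : Fin n, ∑ i ∈ range ((B.L m).h v), GG (E a a) v 0 i i =
        ∑ a : Fin r, ∑ i ∈ range ((B.L m).h v),
          GG ((1 : Matrix (Fin r) (Fin r) (S m)) a a) v 0 i i := by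
    intro v hv
    have e1 := hR.1 (Fin n) E hE (fun a b => GG (E a b)) (fun a b => (hGG _).2) v 0
      (lt_of_lt_of_le hv hlv.nN) hU
    have e2 := hR.1 (Fin r) 1 h1 (fun a b => GG ((1 : Matrix (Fin r) (Fin r) (S m)) a b))
      (fun a b => (hGG _).2) v 0 (lt_of_lt_of_le hv hlv.nN) hU
    have h3 := hw v hv
    rw [hwE, map_sub, Pi.sub_apply, sub_eq_zero] at h3
    rw [hlv.vtx v hv, List.map_singleton, List.sum_singleton] at e1 e2
    refine e1.trans (Eq.trans ?_ e2.symm)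
    rw [h3]
  obtain ⟨x, y, hx, hy⟩ := hBEQ B M α A ι u c hC S hS m (Fin n) (Fin r) E 1 hE h1
    (fun a b => GG (E a b)) (fun a b => GG ((1 : Matrix (Fin r) (Fin r) (S m)) a b))
    (fun a b => (hGG (E a b)).2)
    (fun a b => (hGG ((1 : Matrix (Fin r) (Fin r) (S m)) a b)).2) key
  rw [hwE, hK0E (S m) (Fin n) (Fin r) E 1 hE h1 x y hx hy, sub_self]

end Pool.Agent.BND
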